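import Pool.Agent.Lib.MP_7d0545_co.Defs
import Pool.Agent.Lib.MP_7d0545_co.Fan

set_option autoImplicit false

namespace Pool.Agent.Results.MP_7d0545_co.IrreducibleCounterexample

open Pool.Agent.Lib.MP_7d0545_co

/-- There are two irreducible balanced polyhedral complexes of dimension two in `ℝ^4` with
non-empty stable intersection and a connected component of the intersection of their supports that
contains no point of the stable intersection. -/
theorem result : ∃ S L : BalancedComplex 4 2, S.Irreducible ∧ L.Irreducible ∧
    (S.stableInter L).Nonempty ∧
    ∃ x ∈ S.support ∩ L.support,
      Disjoint (connectedComponentIn (S.support ∩ L.support) x) (S.stableInter L) :=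
  main

end Pool.Agent.Results.MP_7d0545_co.IrreducibleCounterexample
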